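import Pool.Agent.H27.HP.T
import Pool.Agent.H60.HB.LNB

/-!
# LND: the linear part, second half, for `p ≥ 2` (MP_8352e3_an)
-/

set_option autoImplicit false

namespace Pool.Agent.H60.HP.LND
open MeasureTheory Set Filter Topology Pool.Agent.H80.HS Pool.Agent.H93.HQ Pool.Agent.H27.HB
open Pool.Agent.H27.HP Pool.Agent.H60.HB.LNB
open scoped ContDiff ENNReal

/-- arithmetic of the exponents -/
theorem ps_facts {n : ℕ} (hn : 1 ≤ n) {p : ℝ} (h1 : 2 ≤ p) (h2 : p ≤ 17 / 8) :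
    ps n 2 = 2 + 2 / (n : ℝ) ∧ ps n 2 ≤ ps n p ∧ ps n p - ps n 2 ≤ 8 * (p - 2) := by
  have hx : (1 : ℝ) ≤ n := by exact_mod_cast hn
  have hx0 : (0 : ℝ) < n := by linarith
  have hD : 0 < 2 * (n : ℝ) + 2 - p := by linarith
  have e : ps n p - ps n 2 = (2 * n + 2) ^ 2 * (p - 2) / ((2 * n) * (2 * n + 2 - p)) := by
    unfold ps
    have e2 : 2 * (n : ℝ) + 2 - 2 = 2 * n := by ring
    rw [e2, div_sub_div _ _ hD.ne' (by positivity)]
    rw [mul_comm (2 * (n : ℝ) + 2 - p) (2 * n)]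
    congr 1
    ring
  have hp2 : 0 ≤ p - 2 := by linarith
  refine ⟨?_, ?_, ?_⟩
  · have e4 : 2 * (n : ℝ) + 2 - 2 = 2 * n := by ring
    unfold ps
    rw [e4]
    field_simp
  · have : 0 ≤ ps n p - ps n 2 := by
      rw [e]
      positivity
    linarith
  · rw [e, div_le_iff₀ (by positivity)]
    have h3 : (2 * (n : ℝ) + 2) ^ 2 ≤ 8 * ((2 * n) * (2 * n + 2 - p)) := by nlinarith
    nlinarith

theorem ptw {u p q Q m : ℝ} (hu : 0 < u) (hu1 : u ≤ 1) (hm : 0 < m) (hqQ : Q ≤ q)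
    (hQ : q - Q ≤ 8 * (p - 2)) :
    |u ^ (Q - 1) - u ^ (q - 1)| ≤ 8 * m * (p - 2) * u ^ (Q - 1 - 1 / m) := by
  have h1 : u ^ (q - 1) ≤ u ^ (Q - 1) :=
    Real.rpow_le_rpow_of_exponent_ge hu hu1 (by linarith)
  rw [abs_of_nonneg (by linarith)]
  have e1 : u ^ (q - 1) = u ^ (Q - 1) * u ^ (q - Q) := by
    rw [← Real.rpow_add hu]
    congr 1
    ring
  have e2 : 1 + Real.log u * (q - Q) ≤ u ^ (q - Q) := by
    rw [Real.rpow_def_of_pos hu]
    have := Real.add_one_le_exp (Real.log u * (q - Q))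
    linarith
  have e3 : -Real.log u ≤ m * u ^ (-(1 / m)) := by
    have h := Real.log_le_rpow_div (x := u⁻¹) (ε := 1 / m) (by positivity) (by positivity)
    rw [Real.log_inv, Real.inv_rpow hu.le, ← Real.rpow_neg hu.le] at h
    have e4 : u ^ (-(1 / m)) / (1 / m) = m * u ^ (-(1 / m)) := by
      rw [div_div_eq_mul_div, div_one, mul_comm]
    linarith
  have e5 : u ^ (Q - 1 - 1 / m) = u ^ (Q - 1) * u ^ (-(1 / m)) := by
    rw [← Real.rpow_add hu]
    congr 1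
  rw [e1, e5]
  have p1 : 0 < u ^ (Q - 1) := Real.rpow_pos_of_pos hu _
  have p2 : 0 < u ^ (-(1 / m)) := Real.rpow_pos_of_pos hu _
  have h3 : 1 - u ^ (q - Q) ≤ 8 * (p - 2) * (m * u ^ (-(1 / m))) := by
    have h4 : (q - Q) * (-Real.log u) ≤ (q - Q) * (m * u ^ (-(1 / m))) :=
      mul_le_mul_of_nonneg_left e3 (by linarith)
    have h5 : (q - Q) * (m * u ^ (-(1 / m))) ≤ 8 * (p - 2) * (m * u ^ (-(1 / m))) :=
      mul_le_mul_of_nonneg_right hQ (by positivity)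
    nlinarith
  have h6 := mul_le_mul_of_nonneg_left h3 p1.le
  calc u ^ (Q - 1) - u ^ (Q - 1) * u ^ (q - Q) = u ^ (Q - 1) * (1 - u ^ (q - Q)) := by ring
    _ ≤ u ^ (Q - 1) * (8 * (p - 2) * (m * u ^ (-(1 / m)))) := h6
    _ = 8 * m * (p - 2) * (u ^ (Q - 1) * u ^ (-(1 / m))) := by ring

theorem pf_LND (hJJI : T_JJI) : T_LND := by
  intro n hn
  have hx : (1 : ℝ) ≤ n := by exact_mod_cast hn
  have hx0 : (0 : ℝ) < n := by linarith
  obtain ⟨s0, hs0⟩ : ∃ s0 : ℝ, s0 = 1 + 3 / (2 * (n : ℝ)) := ⟨_, rfl⟩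
  have hs1 : 0 ≤ s0 := by rw [hs0]; positivity
  have hint : Integrable (fun z : H n => u0 n z ^ s0) := by
    have h := (hJJI n 0 ((n : ℝ) / 2 + 3 / 4) hn le_rfl (by nlinarith)).1
    refine h.congr (Eventually.of_forall fun z => ?_)
    change mz z ^ (0 : ℝ) * ww z ^ (-((n : ℝ) / 2 + 3 / 4)) = u0 n z ^ s0
    rw [Real.rpow_zero, one_mul, u0_rpow]
    congr 1
    rw [hs0]
    field_simp
    ring
  obtain ⟨J, hJ⟩ : ∃ J : ℝ, J = ∫ z : H n, u0 n z ^ s0 := ⟨_, rfl⟩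
  have hJ0 : 0 ≤ J := by
    rw [hJ]
    exact integral_nonneg fun z => (Real.rpow_pos_of_pos (u0_pos z) _).le
  refine ⟨16 * n * (1 + J), by positivity, ?_⟩
  intro p hp1 hp2 f hf
  obtain ⟨q1, q2, q3⟩ := ps_facts hn hp1 hp2
  obtain ⟨q, hq⟩ : ∃ q : ℝ, q = ps n p := ⟨_, rfl⟩
  obtain ⟨Q, hQ⟩ : ∃ Q : ℝ, Q = ps n 2 := ⟨_, rfl⟩
  rw [← hq] at q2 q3 hf ⊢
  rw [← hQ] at q1 q2 q3 ⊢
  have hQ2 : 2 < Q := by
    rw [q1]
    have : 0 < 2 / (n : ℝ) := by positivity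
    linarith
  obtain ⟨q', hq'⟩ : ∃ q' : ℝ, q' = q / (q - 1) := ⟨_, rfl⟩
  have hq10 : 0 < q - 1 := by linarith
  have hq'0 : 0 < q' := by rw [hq']; exact div_pos (by linarith) hq10
  have hq'1 : 1 ≤ q' := by
    rw [hq', le_div_iff₀ hq10]
    linarith
  have hconj : q'.HolderConjugate q := by
    rw [Real.holderConjugate_iff]
    refine ⟨?_, ?_⟩
    · rw [hq', lt_div_iff₀ hq10]
      linarith
    · rw [hq']
      have : q ≠ 0 := by linarith
      have : q - 1 ≠ 0 := hq10.ne'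
      field_simp
      ring
  have hQs : Q - 1 - 1 / (2 * (n : ℝ)) = s0 := by
    rw [q1, hs0]
    field_simp
    ring
  have hexp : s0 ≤ s0 * q' := le_mul_of_one_le_right hs1 hq'1
  obtain ⟨w, hw⟩ : ∃ w : H n → ℝ, w = fun z => u0 n z ^ (Q - 1) - u0 n z ^ (q - 1) := ⟨_, rfl⟩
  have hwc : Continuous w := by
    have h1 : Continuous fun z : H n => u0 n z ^ (Q - 1) :=
      cont_u0.rpow_const fun z => Or.inl (u0_pos z).ne'
    have h2 : Continuous fun z : H n => u0 n z ^ (q - 1) :=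
      cont_u0.rpow_const fun z => Or.inl (u0_pos z).ne'
    rw [hw]
    exact h1.sub h2
  have h2p : 0 ≤ p - 2 := by linarith
  have hc0 : 0 ≤ 16 * (n : ℝ) * (p - 2) := by positivity
  have hb : ∀ z, ‖w z‖ ^ q' ≤ (16 * n * (p - 2)) ^ q' * u0 n z ^ s0 := by
    intro z
    have h1 : ‖w z‖ ≤ 16 * n * (p - 2) * u0 n z ^ s0 := by
      rw [Real.norm_eq_abs, hw]
      have h3 := ptw (m := 2 * (n : ℝ)) (u0_pos z) (u0_le z) (by positivity) q2 q3
      rw [hQs] at h3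
      refine h3.trans (le_of_eq ?_)
      ring
    refine (Real.rpow_le_rpow (norm_nonneg _) h1 hq'0.le).trans ?_
    rw [Real.mul_rpow hc0 (Real.rpow_nonneg (u0_pos z).le _),
      ← Real.rpow_mul (u0_pos z).le]
    refine mul_le_mul_of_nonneg_left ?_ (Real.rpow_nonneg hc0 _)
    exact Real.rpow_le_rpow_of_exponent_ge (u0_pos z) (u0_le z) hexp
  have hwi : Integrable fun z => ‖w z‖ ^ q' := by
    refine (hint.const_mul ((16 * n * (p - 2)) ^ q')).mono'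
      ((hwc.norm.rpow_const fun z => Or.inr hq'0.le).aestronglyMeasurable)
      (Eventually.of_forall fun z => ?_)
    rw [Real.norm_of_nonneg (Real.rpow_nonneg (norm_nonneg _) _)]
    exact hb z
  have hwm : MemLp w (ENNReal.ofReal q') := by
    rw [← integrable_norm_rpow_iff hwc.aestronglyMeasurable (by simpa using hq'0)
      ENNReal.ofReal_ne_top, ENNReal.toReal_ofReal hq'0.le]
    exact hwi
  have hH := integral_mul_norm_le_Lp_mul_Lq hconj hwm hf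
  have h1 : |∫ z, w z * f z| ≤ ∫ z, ‖w z‖ * ‖f z‖ := by
    rw [← Real.norm_eq_abs]
    refine (norm_integral_le_integral_norm _).trans (le_of_eq ?_)
    simp only [norm_mul]
  have h2 : (∫ z, ‖w z‖ ^ q') ≤ (16 * n * (p - 2)) ^ q' * J := by
    rw [hJ, ← integral_const_mul]
    exact integral_mono hwi (hint.const_mul _) hb
  have h3 : (∫ z, ‖w z‖ ^ q') ^ (1 / q') ≤ 16 * n * (p - 2) * (1 + J) := by
    refine (Real.rpow_le_rpow (integral_nonneg fun z => Real.rpow_nonneg (norm_nonneg _) _) h2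
      (by positivity)).trans ?_
    rw [Real.mul_rpow (Real.rpow_nonneg hc0 _) hJ0, ← Real.rpow_mul hc0,
      mul_one_div_cancel hq'0.ne', Real.rpow_one]
    refine mul_le_mul_of_nonneg_left ?_ hc0
    have h4 : J ^ (1 / q') ≤ (1 + J) ^ (1 / q') :=
      Real.rpow_le_rpow hJ0 (by linarith) (by positivity)
    have h5 : (1 + J) ^ (1 / q') ≤ (1 + J) ^ (1 : ℝ) :=
      Real.rpow_le_rpow_of_exponent_le (by linarith) (by rw [div_le_one hq'0]; exact hq'1)
    rw [Real.rpow_one] at h5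
    linarith
  have h6 : (∫ z, ‖f z‖ ^ q) = ms q f := by
    unfold ms
    simp only [Real.norm_eq_abs]
  rw [h6] at hH
  have h7 : 0 ≤ ms q f ^ (1 / q) := by
    refine Real.rpow_nonneg ?_ _
    exact integral_nonneg fun z => Real.rpow_nonneg (abs_nonneg _) _
  have h8 : |∫ z, w z * f z| ≤ 16 * n * (1 + J) * (p - 2) * ms q f ^ (1 / q) := by
    calc |∫ z, w z * f z| ≤ (∫ z, ‖w z‖ ^ q') ^ (1 / q') * ms q f ^ (1 / q) := h1.trans hH
      _ ≤ (16 * n * (p - 2) * (1 + J)) * ms q f ^ (1 / q) := mul_le_mul_of_nonneg_right h3 h7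
      _ = 16 * n * (1 + J) * (p - 2) * ms q f ^ (1 / q) := by ring
  rw [hw] at h8
  exact h8

end Pool.Agent.H60.HP.LND
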