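import Pool.Agent.H27.HP.T
import Pool.Agent.H60.HB.CVS

/-!
# CVP: strong convexity for `p ≥ 2` (MP_8352e3_an)
-/

set_option autoImplicit false

namespace Pool.Agent.H60.HP.CVP
open MeasureTheory Set Filter Topology Pool.Agent.H80.HS Pool.Agent.H93.HQ Pool.Agent.H27.HB
open Pool.Agent.H27.HP
open scoped ContDiff ENNReal

theorem pf_CVP (hMNP : T_MNP) : T_CVP := by
  intro n p hp2 a b
  have hp1 : 1 < p := by linarith
  have hp0 : p ≠ 0 := by linarith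
  have he : 0 ≤ p - 2 := by linarith
  obtain ⟨v, hv⟩ : ∃ v : G n, v = b - a := ⟨_, rfl⟩
  obtain ⟨D, hD⟩ : ∃ D : ℝ, D = p * inner ℝ (‖a‖ ^ (p - 2) • a) v := ⟨_, rfl⟩
  obtain ⟨Q, hQ⟩ : ∃ Q : ℝ, Q = 6 ^ (2 - p) * (‖a‖ + ‖b‖) ^ (p - 2) * ‖v‖ ^ 2 := ⟨_, rfl⟩
  obtain ⟨g, hg⟩ : ∃ g : ℝ → ℝ, g = fun t => ‖a + t • v‖ ^ p - t * D - Q * t ^ p := ⟨_, rfl⟩
  have hder : ∀ t, HasDerivAt g (p * inner ℝ (‖a + t • v‖ ^ (p - 2) • (a + t • v)) v -
      D - Q * (p * t ^ (p - 1))) t := by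
    intro t
    rw [hg]
    have h1 := ((Pool.Agent.H60.HB.CVS.der_line hp1 a v t).sub
      ((hasDerivAt_id t).mul_const D)).sub
      ((Real.hasDerivAt_rpow_const (x := t) (p := p) (Or.inr hp1.le)).const_mul Q)
    refine h1.congr_deriv ?_
    simp
  have hmono : MonotoneOn g (Icc 0 1) := by
    refine monotoneOn_of_deriv_nonneg (convex_Icc 0 1)
      (fun t _ => (hder t).continuousAt.continuousWithinAt)
      (fun t _ => (hder t).differentiableAt.differentiableWithinAt) fun t ht => ?_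
    rw [interior_Icc] at ht
    obtain ⟨ht0, ht1⟩ := ht
    rw [(hder t).deriv]
    obtain ⟨x, hx⟩ : ∃ x : G n, x = a + t • v := ⟨_, rfl⟩
    rw [← hx]
    have hxa : x - a = t • v := by
      rw [hx]
      abel
    have hb : ‖b‖ ≤ ‖a‖ + ‖v‖ := by
      have h1 : b = a + v := by rw [hv]; abel
      rw [h1]
      exact norm_add_le _ _
    have h1 : t * ‖v‖ ≤ ‖x‖ + ‖a‖ := by
      have h2 : ‖x - a‖ = t * ‖v‖ := by
        rw [hxa, norm_smul, Real.norm_eq_abs, abs_of_pos ht0]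
      rw [← h2]
      exact norm_sub_le _ _
    have hB : t * (‖a‖ + ‖b‖) / 3 ≤ ‖x‖ + ‖a‖ := by
      have h2 : t * ‖a‖ ≤ ‖a‖ := mul_le_of_le_one_left (norm_nonneg _) ht1.le
      have h3 : t * ‖b‖ ≤ t * (‖a‖ + ‖v‖) := mul_le_mul_of_nonneg_left hb ht0.le
      nlinarith [norm_nonneg x, norm_nonneg a]
    have hs : 0 ≤ ‖a‖ + ‖b‖ := add_nonneg (norm_nonneg _) (norm_nonneg _)
    have hpw : (t * (‖a‖ + ‖b‖) / 3) ^ (p - 2) ≤ (‖x‖ + ‖a‖) ^ (p - 2) :=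
      Real.rpow_le_rpow (by positivity) hB he
    have e1 : (t * (‖a‖ + ‖b‖) / 3) ^ (p - 2) =
        t ^ (p - 2) * (‖a‖ + ‖b‖) ^ (p - 2) * 3 ^ (2 - p) := by
      rw [div_eq_mul_inv, Real.mul_rpow (by positivity) (by norm_num),
        Real.mul_rpow ht0.le hs, Real.inv_rpow (by norm_num), ← Real.rpow_neg (by norm_num),
        neg_sub]
    have e2 : (6 : ℝ) ^ (2 - p) = 2 ^ (2 - p) * 3 ^ (2 - p) := by
      rw [← Real.mul_rpow (by norm_num) (by norm_num)]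
      norm_num
    have e3 : t ^ (p - 1) = t ^ (p - 2) * t := by
      have h2 : p - 1 = (p - 2) + 1 := by ring
      rw [h2, Real.rpow_add ht0, Real.rpow_one]
    have h3 := hMNP n p hp2 x a
    rw [hxa, inner_smul_right, norm_smul, mul_pow, Real.norm_eq_abs, sq_abs] at h3
    have h2p : (0 : ℝ) ≤ 2 ^ (2 - p) := Real.rpow_nonneg (by norm_num) _
    have h4 : (2 : ℝ) ^ (2 - p) * (t * (‖a‖ + ‖b‖) / 3) ^ (p - 2) * (t ^ 2 * ‖v‖ ^ 2) ≤
        t * inner ℝ (‖x‖ ^ (p - 2) • x - ‖a‖ ^ (p - 2) • a) v := by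
      refine le_trans ?_ h3
      gcongr
    rw [e1] at h4
    have h5 : t * (Q * t ^ (p - 1)) ≤
        t * inner ℝ (‖x‖ ^ (p - 2) • x - ‖a‖ ^ (p - 2) • a) v := by
      refine le_trans (le_of_eq ?_) h4
      rw [hQ, e2, e3]
      ring
    have h6 := le_of_mul_le_mul_left h5 ht0
    rw [inner_sub_left] at h6
    rw [hD]
    nlinarith
  have h7 := hmono (left_mem_Icc.2 zero_le_one) (right_mem_Icc.2 zero_le_one) zero_le_one
  rw [hg] at h7
  simp only [zero_smul, add_zero, zero_mul, sub_zero, one_smul, one_mul, mul_one,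
    Real.one_rpow, Real.zero_rpow hp0, mul_zero] at h7
  have h8 : a + v = b := by rw [hv]; abel
  rw [h8, hD, hQ] at h7
  rw [inner_smul_left] at h7
  have h9 : ‖a - b‖ = ‖v‖ := by rw [hv, norm_sub_rev]
  rw [h9, ← hv]
  have h10 : (starRingEnd ℝ) (‖a‖ ^ (p - 2)) = ‖a‖ ^ (p - 2) := rfl
  rw [h10] at h7
  linarith

end Pool.Agent.H60.HP.CVP
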